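import Mathlib
import Pool.Agent.H767R2.Charac
import Pool.Agent.H767R2.Exist3
import Pool.Agent.H767R2.Defs2

set_option autoImplicit false

/-!
# Characteristic factors of polynomial averages for Weyl systems: `d^W_min(𝒫) ≤ |𝒫| - 1`

For every essentially distinct finite family `𝒫 ⊂ ℤ[t]` with at least two elements the Host–Kra
factor of order `|𝒫| - 1` is characteristic for the averages of `𝒫` in every Weyl system.

The proof (modules `Pool.Agent.H767R2`) reduces the statement to the degree bound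
`deg Qᵢ + 2 ≤ #s` for polynomial relations `∑ Qᵢ (x + pᵢ (y)) = 0`.
-/

namespace Pool.Agent.Results.MP_467fc0_an.WeylDegreeBound

open Pool.Agent.H767R2 MeasureTheory Filter Topology Polynomial
open scoped ENNReal

/-- Let `𝒫 ⊂ ℤ[t]` be a finite essentially distinct family with `|𝒫| ≥ 2`. Then
`d^W_min(𝒫) ≤ |𝒫| - 1`. In detail, on every Weyl system the Host–Kra factor of order `|𝒫| - 1`
exists, every such factor is characteristic for mean convergence of the averages of `𝒫`, and the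
averages tend to `0` in `L²` as soon as one of the bounded functions has vanishing Host–Kra
seminorm of order `|𝒫|`. -/
theorem result (P : Finset ℤ[X]) (hP : EssentiallyDistinct P) (h2 : 2 ≤ P.card) :
    dWMin P ≤ ((P.card - 1 : ℕ) : ℕ∞) ∧
    ∀ W : WeylSystem,
      (∃ 𝒵 : MeasurableSpace (Fin W.D → UnitAddCircle),
        IsHKFactor 𝒵 (haarT W.D) W.T (P.card - 1)) ∧
      (∀ 𝒵 : MeasurableSpace (Fin W.D → UnitAddCircle),
        IsHKFactor 𝒵 (haarT W.D) W.T (P.card - 1) → IsCharacteristic 𝒵 (haarT W.D) W.T P) ∧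
      ∀ f : ℤ[X] → (Fin W.D → UnitAddCircle) → ℂ, (∀ p ∈ P, MemLp (f p) ∞ (haarT W.D)) →
        (∃ p ∈ P, hk (haarT W.D) W.T (P.card - 1) (f p) = 0) →
        Tendsto (fun N : ℕ => eLpNorm (polyAvg W.T P f N) 2 (haarT W.D)) atTop (𝓝 0) := by
  classical
  have hex : ∀ W : WeylSystem, ∃ 𝒵 : MeasurableSpace (Fin W.D → UnitAddCircle),
      IsHKFactor 𝒵 (haarT W.D) W.T (P.card - 1) := fun W => W.exists_hkFactor _
  have hch : ∀ (W : WeylSystem) (𝒵 : MeasurableSpace (Fin W.D → UnitAddCircle)),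
      IsHKFactor 𝒵 (haarT W.D) W.T (P.card - 1) → IsCharacteristic 𝒵 (haarT W.D) W.T P :=
    fun W 𝒵 h𝒵 => characteristic_card_sub_one P hP h2 W 𝒵 h𝒵
  refine ⟨?_, fun W => ⟨hex W, hch W, fun f hf ⟨p, hp, h0⟩ => ?_⟩⟩
  · refine iInf₂_le (P.card - 1) fun W => ?_
    obtain ⟨𝒵, h𝒵⟩ := hex W
    exact ⟨𝒵, h𝒵, hch W 𝒵 h𝒵⟩
  · exact seminorm_form W P (fun q => q) h2 (fun q hq => hP.1 q hq)
      (fun q hq r hr h => hP.2 q hq r hr h) f _ (fun q hq => bd_of_memLp_top (hf q hq)) p hp h0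

end Pool.Agent.Results.MP_467fc0_an.WeylDegreeBound
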